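import Pool.Agent.W_448cl_h64.CnA
import Pool.Agent.W_448pb_h63.PbC
import Pool.Agent.W_448ut_h16.UtB

/-!
The counting theorem at the window j (MP_448cb3_co, case B): the series of the configurations which
touch exactly the labels `T` (`Ut.XS` of the unit trick) in coefficient form.
-/

namespace Pool.Agent.GaussPoset.Win.K2

set_option linter.unusedSectionVars false

open Finset I2

universe u

variable {P : Type u} [Fintype P] [PartialOrder P] [DecidableEq P] {r i l : ℕ} {e : P → ℕ}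

variable {ι : Type*} [DecidableEq ι] {κ : P → ι} {K : Finset P} {psi : P → P}

lemma US_eq_eT (S : Finset ι) : Ut.US l κ S = eT l κ S := by
  ext x
  rw [Ut.mem_US, mem_eT]

lemma Tch_eq (e : P → ℕ) : Ut.Tch l κ e = Tch l κ e := by
  ext a
  rw [Ut.mem_Tch, mem_Tch]
  constructor
  · rintro ⟨y, ⟨hy, z, z1, z2, z3⟩, rfl⟩
    exact ⟨z, by omega, z1, y, z3, hy, rfl⟩
  · rintro ⟨z, z1, z2, y, y1, y2, rfl⟩
    exact ⟨y, ⟨y2, z, z2, by omega, y1⟩, rfl⟩

/-- the two series of the configurations which touch exactly `S` agree -/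
theorem XS_eq_XT (S : Finset ι) : Ut.XS i (i + 1) κ S = XT i κ S (fun _ => True) := by
  classical
  ext1 n
  unfold Ut.XS Ut.XC XT
  rw [PowerSeries.coeff_mk, coeff_ZQ, US_eq_eT]
  refine Finset.sum_congr ?_ fun _ _ => rfl
  ext e
  simp only [Finset.mem_filter, Tch_eq, and_true]

/-- the number of the sites of a set of labels -/
lemma card_st_lab (hil : i ≤ l) (hκ : Split l κ) (T : Finset ι) :
    (st i (eT l κ T)).card = ∑ a ∈ T, (st i (cext l κ a)).card := by
  rw [← Finset.card_biUnion]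
  · congr 1
    ext v
    rw [mem_biUnion, mem_st]
    constructor
    · rintro ⟨h1, h2⟩
      have h3 := mem_eT.1 h1 v le_rfl (by omega)
      exact ⟨κ v, h3, mem_st.2 ⟨mem_cext_of_le hκ (by omega) rfl, h2⟩⟩
    · rintro ⟨a, ha, hv⟩
      obtain ⟨h1, h2⟩ := mem_st.1 hv
      exact ⟨cext_sub_eT ha h1, h2⟩
  · intro a _ b _ hab
    rw [Function.onFun, disjoint_left]
    intro v hv hv'
    exact disjoint_left.1 (disj_cext hab) (mem_st.1 hv).1 (mem_st.1 hv').1

lemma tC_zero_of {C : Finset P} (h : AdmL i e → AdmU i e → Disjoint (AL i e) (AU i e) → False) :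
    tC i C e = 0 := by
  unfold tC
  by_cases hd : Disjoint (AL i e) (AU i e)
  · rw [if_pos hd]
    unfold cw
    by_cases hA : AdmL i e ∧ AdmU i e
    · exact (h hA.1 hA.2 hd).elim
    · rw [if_neg hA, zero_mul]
  · rw [if_neg hd]

lemma coeff_dd {N m : ℕ} {f : A} (h : dd ^ N ∣ f) (hm : PowerSeries.coeff m f ≠ 0) : N ≤ m := by
  by_contra h0
  exact hm ((PowerSeries.X_pow_dvd_iff.1 h) m (by omega))

/-- THE CROSS SERIES in coefficient form, for labels with a star, labels with a charge `C` (`P6`)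
and light labels with three sites (`S0`) -/
theorem cross_slope (H : Gr P r) (hir : i ≤ r) (hq : NoQ P (i + 2))
    (hg : ∀ m, m + 1 = i → Good P m) (hκ : Split (i + 1) κ) (hM : Mat P i K psi)
    {T S0 P6 : Finset ι} {C : ℕ}
    (hK : ∀ a ∈ T, a ∉ P6 → Star i (cext (i + 1) κ a) K)
    (hC : ∀ e : P → ℕ, Disjoint (AL i e) (AU i e) → ∀ a ∈ T, a ∈ P6 → Cap i κ K e a C)
    (h3 : ∀ t ∈ S0, (st i (cext (i + 1) κ t)).card ≤ 3)
    (hl : ∀ t ∈ S0, ∀ z y v, SD i κ z y v → κ v = t → ∀ k ∈ K, κ k = t →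
      ¬ Disjoint (ns i k) (uc v))
    (h06 : Disjoint S0 P6) {n m : ℕ}
    (hne : PowerSeries.coeff m (PowerSeries.coeff n (Ut.XS i (i + 1) κ T)) ≠ 0) :
    6 * ∑ a ∈ T, (st i (cext (i + 1) κ a)).card + (S0 ∩ T).card ≤
      4 * n + 6 * m + 2 * C * (P6 ∩ T).card := by
  classical
  rw [XS_eq_XT] at hne
  have hT' : ∀ e : P → ℕ, Tch (i + 1) κ e = T → ∀ a ∈ T, Tou i κ e a := by
    intro e h3 a ha
    rw [← h3, mem_Tch] at ha
    obtain ⟨z, z1, z2, z3⟩ := ha
    exact ⟨z, z2, z1, z3⟩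
  -- the number of the touched light labels
  have hn : (S0 ∩ T).card ≤ 4 * n + 2 * C * (P6 ∩ T).card := by
    by_contra hlt
    apply hne
    have h0 : PowerSeries.coeff n (XT i κ T (fun _ => True)) = 0 := by
      unfold XT
      rw [coeff_ZQ]
      refine Finset.sum_eq_zero fun e he => tC_zero_of fun hL _ _ => ?_
      simp only [Finset.mem_filter, mem_pa'] at he
      obtain ⟨⟨h1, -⟩, h2, -⟩ := he
      have h4 := card_touch H hκ hq hL (hT' e h2)
      have h5 : (DxD i e).card ≤ ∑ x, e x := by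
        rw [Finset.card_eq_sum_ones]
        refine le_trans (Finset.sum_le_sum fun x hx => (mem_DxD.1 hx).1) ?_
        exact Finset.sum_le_sum_of_subset (subset_univ _)
      have h6 : (S0 ∩ T).card ≤ T.card := card_le_card inter_subset_right
      omega
    rw [h0, map_zero]
  obtain ⟨M, hM1, hM2⟩ : ∃ M : ℕ, 6 * M + (S0 ∩ T).card ≤ 4 * n + 2 * C * (P6 ∩ T).card ∧
      4 * n + 2 * C * (P6 ∩ T).card < 6 * M + (S0 ∩ T).card + 6 :=
    ⟨(4 * n + 2 * C * (P6 ∩ T).card - (S0 ∩ T).card) / 6, by omega, by omega⟩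
  have key : dd ^ ((st i (eT (i + 1) κ T)).card - M) ∣
      PowerSeries.coeff n (XT i κ T (fun _ => True)) := by
    refine XT_dvd H hir hq hg hκ hM (fun _ _ _ => Iff.rfl) ?_
    intro e h1 h2 h4 _ hL hU hd
    have hs : ∀ x, lev x ≤ i + 1 → 1 ≤ e x → κ x ∈ T := by
      intro x hx h0
      have h4 : x ∈ eT (i + 1) κ T := by
        by_contra h5
        have := h2 x h5
        omega
      exact mem_eT.1 h4 x le_rfl hx
    have h5 := cross_cnt H hir hq hg hκ hM hK (hC e hd) h3 hl h06 (hT' e h4) hs hL hU hd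
    rw [h1] at h5
    omega
  have h1 := coeff_dd key hne
  rw [card_st_lab (by omega) hκ] at h1
  omega

end Pool.Agent.GaussPoset.Win.K2
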